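import Pool.Agent.W425.MM.Defs2

/-!
# Project MM: rays and the Newton polyhedron (MM-RAY)
-/

set_option autoImplicit false

namespace Pool.Agent.W585.MM.RAY

open Pool.Agent.W425.MM
open Pool.Agent.W425.SV (NP)
open Pool.Agent.W426.SM (gord IsRay face)

section

variable {r N : ℕ} (v : Fin r → Fin N → ℕ) (a : Fin N → ℕ)

theorem gord_le (j : Fin r) : gord v a ≤ ∑ i, a i * v j i :=
  ciInf_le' (fun j => ∑ i, a i * v j i) j

theorem le_gord (hr : 0 < r) (A : ℕ) (h : ∀ j, A ≤ ∑ i, a i * v j i) : A ≤ gord v a := by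
  have : Nonempty (Fin r) := ⟨⟨0, hr⟩⟩
  exact le_ciInf h

theorem exists_face (hr : 0 < r) : ∃ j, face v a j := by
  have : Nonempty (Fin r) := ⟨⟨0, hr⟩⟩
  exact exists_eq_ciInf_of_finite (f := fun j => ∑ i, a i * v j i)

theorem sw (l : Fin r → ℝ) : ∑ i, (a i : ℝ) * ∑ j, l j * (v j i : ℝ) =
    ∑ j, l j * ∑ i, (a i : ℝ) * (v j i : ℝ) := by
  simp only [Finset.mul_sum]
  rw [Finset.sum_comm]
  refine Finset.sum_congr rfl fun j _ => Finset.sum_congr rfl fun i _ => by ring

theorem np_le (w : Fin N → ℕ) (l : Fin r → ℝ) (h0 : ∀ j, 0 ≤ l j) (h1 : ∑ j, l j = 1)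
    (h2 : ∀ i, ∑ j, l j * (v j i : ℝ) ≤ (w i : ℝ)) :
    gord v a ≤ ∑ i, a i * w i := by
  have e1 : ∑ i, (a i : ℝ) * ∑ j, l j * (v j i : ℝ) ≤ ∑ i, (a i : ℝ) * (w i : ℝ) :=
    Finset.sum_le_sum fun i _ => mul_le_mul_of_nonneg_left (h2 i) (Nat.cast_nonneg _)
  rw [sw] at e1
  have e2 : ∑ j, l j * (gord v a : ℝ) ≤ ∑ j, l j * ∑ i, (a i : ℝ) * (v j i : ℝ) :=
    Finset.sum_le_sum fun j _ => mul_le_mul_of_nonneg_left
      (by exact_mod_cast gord_le v a j) (h0 j)
  rw [← Finset.sum_mul, h1, one_mul] at e2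
  exact_mod_cast e2.trans e1

theorem np_eq (w : Fin N → ℕ) (l : Fin r → ℝ) (h0 : ∀ j, 0 ≤ l j) (h1 : ∑ j, l j = 1)
    (h2 : ∀ i, ∑ j, l j * (v j i : ℝ) ≤ (w i : ℝ)) (hw : ∑ i, a i * w i = gord v a) :
    (∀ j, l j = 0 ∨ face v a j) ∧ ∀ i, a i = 0 ∨ ∑ j, l j * (v j i : ℝ) = (w i : ℝ) := by
  have e1 : ∑ i, (a i : ℝ) * ∑ j, l j * (v j i : ℝ) ≤ ∑ i, (a i : ℝ) * (w i : ℝ) :=
    Finset.sum_le_sum fun i _ => mul_le_mul_of_nonneg_left (h2 i) (Nat.cast_nonneg _)
  have e2 : ∑ j, l j * (gord v a : ℝ) ≤ ∑ j, l j * ∑ i, (a i : ℝ) * (v j i : ℝ) :=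
    Finset.sum_le_sum fun j _ => mul_le_mul_of_nonneg_left
      (by exact_mod_cast gord_le v a j) (h0 j)
  have e3 : ∑ j, l j * (gord v a : ℝ) = gord v a := by rw [← Finset.sum_mul, h1, one_mul]
  have hw' : ∑ i, (a i : ℝ) * (w i : ℝ) = gord v a := by exact_mod_cast hw
  have e4 : ∑ i, (a i : ℝ) * ∑ j, l j * (v j i : ℝ) = ∑ i, (a i : ℝ) * (w i : ℝ) := by
    refine le_antisymm e1 ?_
    rw [hw', ← e3, sw]
    exact e2
  have e5 : ∑ j, l j * (gord v a : ℝ) = ∑ j, l j * ∑ i, (a i : ℝ) * (v j i : ℝ) := by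
    rw [← sw, e4, hw', e3]
  constructor
  · intro j
    have e6 := (Finset.sum_eq_sum_iff_of_le (fun j _ => mul_le_mul_of_nonneg_left
      (by exact_mod_cast gord_le v a j) (h0 j))).1 e5 j (Finset.mem_univ j)
    rcases eq_or_ne (l j) 0 with h | h
    · exact Or.inl h
    · right
      have e7 := mul_left_cancel₀ h e6
      have e8 : ∑ i, a i * v j i = gord v a := by exact_mod_cast e7.symm
      exact e8
  · intro i
    have e6 := (Finset.sum_eq_sum_iff_of_le (fun i _ => mul_le_mul_of_nonneg_left (h2 i)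
      (Nat.cast_nonneg (a i)))).1 e4 i (Finset.mem_univ i)
    rcases eq_or_ne (a i) 0 with h | h
    · exact Or.inl h
    · right
      exact mul_left_cancel₀ (by exact_mod_cast h) e6

end

theorem ray : TaskRAY := by
  intro r q N v w hr hNP a
  choose l h0 h1 h2 using hNP
  simp only [Finsupp.coe_equivFunOnFinite_symm] at h2
  have hg : gord (Fin.append v w) a = gord v a := by
    refine le_antisymm (le_gord v a hr _ fun j => ?_)
      (le_gord _ a (Nat.add_pos_left hr q) _ fun k => ?_)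
    · have := gord_le (Fin.append v w) a (Fin.castAdd q j)
      simpa using this
    · induction k using Fin.addCases with
      | left j => simpa using gord_le v a j
      | right k => simpa using np_le v a (w k) (l k) (h0 k) (h1 k) (h2 k)
  refine ⟨hg, fun hR => ⟨hR.1, fun u hu hc => ?_⟩⟩
  obtain ⟨j0, hj0⟩ := exists_face v a hr
  have key : ∀ k, face (Fin.append v w) a k →
      ∑ i, u i * (Fin.append v w k i : ℚ) = ∑ i, u i * (v j0 i : ℚ) := by
    intro k
    induction k using Fin.addCases with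
    | left j =>
      intro hk
      have hj : face v a j := by
        have : ∑ i, a i * (Fin.append v w (Fin.castAdd q j) i) = gord (Fin.append v w) a := hk
        rw [hg] at this
        have e : ∑ i, a i * v j i = gord v a := by simpa using this
        exact e
      simpa using hc j j0 hj hj0
    | right k =>
      intro hk
      have hk' : ∑ i, a i * w k i = gord v a := by
        have : ∑ i, a i * (Fin.append v w (Fin.natAdd r k) i) = gord (Fin.append v w) a := hk
        rw [hg] at this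
        simpa using this
      obtain ⟨h3, h4⟩ := np_eq v a (w k) (l k) (h0 k) (h1 k) (h2 k) hk'
      simp only [Fin.append_right]
      have e1 : ∑ i, (u i : ℝ) * (w k i : ℝ) = ∑ i, (u i : ℝ) * ∑ j, l k j * (v j i : ℝ) := by
        refine Finset.sum_congr rfl fun i _ => ?_
        rcases h4 i with h | h
        · rw [hu i h]
          simp
        · rw [h]
      have e2 : ∑ i, (u i : ℝ) * ∑ j, l k j * (v j i : ℝ) =
          ∑ j, l k j * ∑ i, (u i : ℝ) * (v j i : ℝ) := by
        simp only [Finset.mul_sum]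
        rw [Finset.sum_comm]
        refine Finset.sum_congr rfl fun j _ => Finset.sum_congr rfl fun i _ => by ring
      have e3 : ∑ j, l k j * ∑ i, (u i : ℝ) * (v j i : ℝ) =
          ∑ j, l k j * ∑ i, (u i : ℝ) * (v j0 i : ℝ) := by
        refine Finset.sum_congr rfl fun j _ => ?_
        rcases h3 j with h | h
        · rw [h]
          simp
        · have := hc j j0 h hj0
          have h5 : ∑ i, (u i : ℝ) * (v j i : ℝ) = ∑ i, (u i : ℝ) * (v j0 i : ℝ) := by
            exact_mod_cast this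
          rw [h5]
      rw [← Finset.sum_mul, h1 k, one_mul] at e3
      have e4 := e1.trans (e2.trans e3)
      exact_mod_cast e4
  exact hR.2 u hu fun j j' hj hj' => (key j hj).trans (key j' hj').symm

end Pool.Agent.W585.MM.RAY
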